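import Pool.Agent.LAT.StmtsC

set_option autoImplicit false

/-!
# FBP: parity and fibres
-/

namespace Pool.Agent.LAT.H16

open scoped Classical in
theorem fbp : FbpStmt := by
  intro α β X f y₀ hX hev
  have hn : ∀ y, {x ∈ X | f x = y}.ncard = (hX.toFinset.filter fun x => f x = y).card := by
    intro y
    rw [← Set.ncard_coe_finset]
    congr 1
    ext x
    simp
  have hc : X.ncard = hX.toFinset.card := Set.ncard_eq_toFinset_card X hX
  have h1 : hX.toFinset.card = ∑ b ∈ insert y₀ (hX.toFinset.image f),
      (hX.toFinset.filter fun x => f x = b).card :=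
    Finset.card_eq_sum_card_fiberwise fun x hx =>
      Finset.mem_coe.2 (Finset.mem_insert_of_mem (Finset.mem_image_of_mem f hx))
  have h2 : insert y₀ (hX.toFinset.image f) = insert y₀ ((hX.toFinset.image f).erase y₀) := by
    ext b
    simp only [Finset.mem_insert, Finset.mem_erase]
    tauto
  rw [hc, hn y₀, h1, h2, Finset.sum_insert (Finset.notMem_erase _ _)]
  have h3 : Even (∑ b ∈ (hX.toFinset.image f).erase y₀,
      (hX.toFinset.filter fun x => f x = b).card) := by
    refine Finset.even_sum _ fun b hb => ?_
    rw [← hn b]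
    exact hev b (Finset.ne_of_mem_erase hb)
  rw [Nat.odd_add]
  exact ⟨fun h => h.2 h3, fun h => ⟨fun _ => h3, fun _ => h⟩⟩

end Pool.Agent.LAT.H16
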